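import Pool.Agent.E8helper1.TP.Pub
import Pool.Agent.E8helper1.TX.Fin6
import Pool.Agent.E8helper65.TX.Hrs
import Pool.Agent.E8helper76.TX.SSG

/-!
# Conversion of the definitions; the theorem for Tate classes
-/

open CategoryTheory AlgebraicGeometry Filter Topology

open scoped ENNReal

universe u

namespace Pool.Agent.E8helper1.TP

open Module
open Pool.Agent.H914 Pool.Agent.H914.VarClass Pool.Agent.H914.VarClass.Obj
  Pool.Agent.H914.WeilCohomology Pool.Agent.H281R3.HT
open Pool.Agent.Y129 (pw pj PowerAction TG tateClasses tateDim cycRank finrank_TG)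
open Pool.Agent.TH125.Gal (IsGaloisAct Intertwines TateAct)
open Pool.Agent.Y121.AHS (HL emL smL mulL grL trL mapL)
open Pool.Agent.E8helper1.TX

set_option linter.unusedSectionVars false

section generic

variable {K A Γ : Type} [Field K] [Ring A] [Algebra K A] [Group Γ] {χ : Γ → K}
  {gr : ℕ → Submodule K A} {n : ℕ} {tr : A →ₗ[K] K} {C : ℕ → Set A} {ρ : Γ → A → A}

/-- The character as a homomorphism. -/
def toChi (h : IsGalois χ gr n tr C ρ) : Γ →* Kˣ where
  toFun g := ⟨χ g, χ g⁻¹, by rw [← h.chi_mul, mul_inv_cancel, h.chi_one],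
    by rw [← h.chi_mul, inv_mul_cancel, h.chi_one]⟩
  map_one' := Units.ext h.chi_one
  map_mul' g g' := Units.ext (h.chi_mul g g')

/-- The action as a homomorphism. -/
def toRho (h : IsGalois χ gr n tr C ρ) : Γ →* (A ≃ₐ[K] A) where
  toFun g :=
    { toFun := ρ g
      invFun := ρ g⁻¹
      left_inv := fun a => by rw [← h.comp, inv_mul_cancel, h.one]
      right_inv := fun a => by rw [← h.comp, mul_inv_cancel, h.one]
      map_mul' := h.mul g
      map_add' := h.add g
      commutes' := fun r => by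
        have h1 : ρ g 1 = 1 := by
          have h2 : ∀ b, ρ g 1 * b = b := by
            intro b
            have h3 : ρ g (ρ g⁻¹ b) = b := by rw [← h.comp, mul_inv_cancel, h.one]
            conv_lhs => rw [← h3]
            rw [← h.mul, one_mul, h3]
          have h4 := h2 1
          rwa [mul_one] at h4
        rw [Algebra.algebraMap_eq_smul_one, h.smul, h1] }
  map_one' := AlgEquiv.ext h.one
  map_mul' g g' := AlgEquiv.ext (h.comp g g')

theorem toGal (h : IsGalois χ gr n tr C ρ) : IsGaloisAct (toChi h) gr n tr C (toRho h) where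
  gr_mem := h.deg
  tr_act := h.trace
  cl_act := h.cyc
  cl_fix := h.fix

end generic

variable {k : Type u} [Field k] {𝒱 : VarClass k} {ops : CycleOps 𝒱}
  {W : WeilCohomology.{u, 0} ops} {X : 𝒱.Obj}

/-- The actions as homomorphisms. -/
noncomputable def Gal.rho (G : Gal W X) (n : ℕ) : G.Γ →* (W.H (pw X n) ≃ₐ[W.K] W.H (pw X n)) := toRho (G.act n)

/-- The character as a homomorphism. -/
noncomputable def Gal.chi (G : Gal W X) : G.Γ →* W.Kˣ := toChi (G.act 0)

theorem Gal.power (G : Gal W X) : PowerAction W X G.chi G.rho where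
  galois n := toGal (G.act n)
  proj n i g a := G.proj n i g a

theorem Gal.tate_eq (G : Gal W X) (n j : ℕ) :
    G.tate n j = (tateClasses G.chi (W.gr (pw X n)) (G.rho n) j : Set (W.H (pw X n))) := rfl

theorem Gal.conj_iff (G : Gal W X) (n : ℕ) : G.TateConj n ↔
    TateAct G.chi (W.gr (pw X n)) (algClasses W (pw X n)) (G.rho n) := by
  constructor
  · intro h j c hc hc'
    exact h j c ⟨hc, hc'⟩
  · intro h j c hc
    exact h j c hc.1 hc.2

theorem Gal.span_eq (G : Gal W X) (n : ℕ) : Submodule.span W.K (⋃ j, G.tate n j) =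
    TG W X G.chi G.rho n := by
  rw [TG]
  apply le_antisymm
  · refine Submodule.span_le.2 ?_
    intro c hc
    obtain ⟨j, hj⟩ := Set.mem_iUnion.1 hc
    exact Submodule.mem_iSup_of_mem j hj
  · refine iSup_le fun j c hc => ?_
    exact Submodule.subset_span (Set.mem_iUnion.2 ⟨j, hc⟩)

theorem Gal.dim_eq (G : Gal W X) (n : ℕ) : G.tateDim n = Y129.tateDim W X G.chi G.rho n := by
  rw [← finrank_TG, ← G.span_eq]
  rfl

theorem algDim_eq (n : ℕ) : algDim W X n = finrank W.K (algSpan W (pw X n)) := rfl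

theorem Gal.semisimple (G : Gal W X) (h : G.Semisimple) : SemisimpleH G.rho := h

theorem Gal.noTypeIV (G : Gal W X) (h : G.NoTypeFour) : NoTypeIV G.chi G.rho := by
  intro a ha hc hs
  have hE : ∀ b : Module.End W.K (W.H X), IsTateOp G.chi G.rho b →
      (b : W.H X → W.H X) ∈ opsOf (W.map (fst X X)) (W.push (snd X X))
        (show Submodule W.K (W.H (X.prod X)) from Submodule.span W.K (⋃ j, G.tate 1 j)) := by
    rintro b ⟨c, hc, rfl⟩
    refine ⟨c, ?_, fun x => ?_⟩
    · change c ∈ Submodule.span W.K (⋃ j, G.tate 1 j)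
      rw [G.span_eq]
      exact hc
    · rw [corr_apply]
  have hE' : ∀ b ∈ opsOf (W.map (fst X X)) (W.push (snd X X))
        (show Submodule W.K (W.H (X.prod X)) from Submodule.span W.K (⋃ j, G.tate 1 j)),
        ∃ b' : Module.End W.K (W.H X), IsTateOp G.chi G.rho b' ∧ ∀ x, b' x = b x := by
    rintro b ⟨c, hc, hb⟩
    have hc' : c ∈ Submodule.span W.K (⋃ j, G.tate 1 j) := hc
    rw [G.span_eq] at hc'
    refine ⟨W.corr (X := X) (Y := X) c, ⟨c, hc', rfl⟩, fun x => ?_⟩
    rw [← hb, corr_apply]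
  refine LinearMap.ext fun x => ?_
  refine h a (hE a ha) ?_ hs x
  intro b hb y
  obtain ⟨b', hb', hbb⟩ := hE' b hb
  rw [← hbb, ← hbb]
  exact LinearMap.congr_fun (hc b' hb') y

/-- The conversion of Hodge structures. -/
noncomputable def Hodge.toDec [Algebra W.K ℂ] (H : Hodge W) : HodgeDec W where
  pq := H.pq
  cj := H.cj
  span := fun Z => (H.big Z).1
  indep := fun Z => (H.big Z).2
  mul := H.typed.mul
  map := H.typed.map
  cyc := fun Z j z hz => ⟨W.cl_mem hz, H.typed.cyc Z j z hz⟩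
  top := H.typed.top
  eff := H.typed.eff
  conj := ⟨H.conj.add, H.conj.smul, H.conj.mul, H.conj.map, H.conj.cyc, H.conj.tr, H.conj.type⟩

theorem mulLeft_pow {A : Type} [Ring A] [Algebra W.K A] (ξ : A) (i : ℕ) (a : A) :
    (LinearMap.mulLeft W.K ξ ^ i) a = ξ ^ i * a := by
  rw [LinearMap.pow_mulLeft, LinearMap.mulLeft_apply]

theorem Hodge.polarizes [Algebra W.K ℂ] (H : Hodge W) {D : X.Cycles} (h : H.Polarizes X D) :
    TX.Polarizes H.toDec X D := by
  obtain ⟨h1, h2, h3⟩ := h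
  refine ⟨h1, fun i hi => ?_, fun p q x hpq hx hx0 hprim => ?_⟩
  · obtain ⟨h4, h5⟩ := h2 i hi
    refine ⟨fun a ha h0 => h4 a ha ?_, fun b hb => ?_⟩
    · rwa [mulLeft_pow] at h0
    · obtain ⟨a, ha, hab⟩ := h5 b hb
      exact ⟨a, ha, by rw [mulLeft_pow]; exact hab⟩
  · exact h3 p q x hpq hx hx0 hprim

/-- **The theorem for Tate classes.** -/
theorem tate_one_power [Algebra W.K ℂ] {ℓ : ℕ} [Fact ℓ.Prime] (φ : W.K ≃+* ℚ_[ℓ])
    (hX : 0 < hdim W X) (G : Gal W X) (hG : G.Integral φ) (hss : G.Semisimple)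
    (hIV : G.NoTypeFour) (H : Hodge W) (D : X.Cycles) (hD : H.Polarizes X D) :
    (∀ m : ℕ, 2 * (hdim W X : ℝ) ^ 3 * Real.log (3 * hdim W X) ≤ m →
      G.TateConj (2 * m - 1) → ∀ n, G.TateConj n) ∧
    (G.TateConj 3 → ∃ N : ℕ, 1 ≤ N ∧ N ≤ bound (hdim W X) ∧
      Quot G.tateDim (algDim W X) (bound (hdim W X)) N ∧ (N = 1 ↔ ∀ n, G.TateConj n)) := by
  have hnt : Nontrivial (W.H X) := Module.nontrivial_of_finrank_pos hX
  obtain ⟨hχ, hlat⟩ := hG
  obtain ⟨h1, h2⟩ := main_tate (ρ := G.rho) Pool.Agent.E8helper89.TX.t_STARJ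
    Pool.Agent.E8helper76.TX.t_SSG s_asm
    Pool.Agent.E8helper26.TX.t_TRF Pool.Agent.E8helper3.TX.t_SQRT Pool.Agent.E8helper89.TX.t_HDG
    Pool.Agent.E8helper65.TX.t_HRS φ G.power hχ hlat (G.semisimple hss) (G.noTypeIV hIV) H.toDec D
    (H.polarizes hD)
  refine ⟨fun m hm hT n => ?_, fun hT => ?_⟩
  · exact (G.conj_iff n).2 (h2 m hm ((G.conj_iff _).1 hT) n)
  · obtain ⟨hN, hle, N, e1, e2, e3, e4⟩ := h1 ((G.conj_iff 3).1 hT)
    have hdim : ∀ n, cycRank ops (pw X n) = algDim W X n := fun n =>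
      (Pool.Agent.Y133.Half.homEqNum_iff' (pw X n)).1 (hN n)
    refine ⟨N, e1, e2, ⟨?_, fun n => ?_⟩, ?_⟩
    · simp only [hdim, ← G.dim_eq] at e3
      exact e3
    · have h3 := hle n
      rw [hdim, ← G.dim_eq] at h3
      exact h3
    · rw [e4]
      exact forall_congr' fun n => (G.conj_iff n).symm

theorem Gal.le_iff (G : Gal W X) (n : ℕ) :
    TG W X G.chi G.rho n ≤ algSpan W (pw X n) ↔ G.TateConj n := by
  rw [G.conj_iff, ← Pool.Agent.Y129.TG_eq_iff G.power]
  exact ⟨fun h4 => le_antisymm h4 (G.power.algSpan_le n), fun h4 => h4.le⟩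

/-- The Tate conjecture for smaller powers. -/
theorem Gal.down (G : Gal W X) {m n : ℕ} (hmn : m ≤ n) (h : G.TateConj n) : G.TateConj m :=
  (G.le_iff m).1 (TG_down G.power hmn ((G.le_iff n).2 h))

/-- **The theorem for Tate classes**, in one statement. -/
theorem tate_law [Algebra W.K ℂ] {ℓ : ℕ} [Fact ℓ.Prime] (φ : W.K ≃+* ℚ_[ℓ])
    (hX : 0 < hdim W X) (G : Gal W X) (hG : G.Integral φ) (hss : G.Semisimple)
    (hIV : G.NoTypeFour) (H : Hodge W) (D : X.Cycles) (hD : H.Polarizes X D) (m : ℕ)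
    (hm : 2 ≤ m) (hT : G.TateConj (2 * m - 1)) :
    ∃ N : ℕ, 1 ≤ N ∧ N ≤ bound (hdim W X) ∧
      Quot G.tateDim (algDim W X) (bound (hdim W X)) N ∧ (N = 1 ↔ ∀ n, G.TateConj n) ∧
      (2 * (hdim W X : ℝ) ^ 3 * Real.log (3 * hdim W X) ≤ m → N = 1) := by
  obtain ⟨h1, h2⟩ := tate_one_power φ hX G hG hss hIV H D hD
  obtain ⟨N, e1, e2, e3, e4⟩ := h2 (G.down (by omega) hT)
  exact ⟨N, e1, e2, e3, e4, fun hm' => e4.2 (h1 m hm' hT)⟩

end Pool.Agent.E8helper1.TP
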