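import Pool.Agent.Y129.Defs
import Pool.Agent.Y121.AHS.HL

/-!
# Galois actions on the cohomology of the powers of a variety, polarisations: definitions
-/

open CategoryTheory AlgebraicGeometry

open scoped ENNReal

universe u

namespace Pool.Agent.E8helper1.TP

section generic

variable {K A Γ : Type} [Field K] [Ring A] [Algebra K A] [Group Γ]

/-- The group `Γ` acts on the graded algebra `A` like a Galois group on the cohomology of a variety
of dimension `n`: by automorphisms `ρ g` of the graded algebra; the trace is multiplied by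
`χ g ^ n`, where `χ` is a character, and `ρ g` maps an element of `C j` (the classes of cycles of
codimension `j`) to the product of `χ g ^ j` with an element of `C j`, which is the same element if
`g` is in a suitable subgroup of finite index. -/
structure IsGalois (χ : Γ → K) (gr : ℕ → Submodule K A) (n : ℕ) (tr : A →ₗ[K] K) (C : ℕ → Set A)
    (ρ : Γ → A → A) : Prop where
  chi_one : χ 1 = 1
  chi_mul : ∀ g h, χ (g * h) = χ g * χ h
  one : ∀ a, ρ 1 a = a
  comp : ∀ g h a, ρ (g * h) a = ρ g (ρ h a)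
  add : ∀ g a b, ρ g (a + b) = ρ g a + ρ g b
  mul : ∀ g a b, ρ g (a * b) = ρ g a * ρ g b
  smul : ∀ g (r : K) a, ρ g (r • a) = r • ρ g a
  deg : ∀ g i, ∀ a ∈ gr i, ρ g a ∈ gr i
  trace : ∀ g a, tr (ρ g a) = χ g ^ n * tr a
  cyc : ∀ g j, ∀ c ∈ C j, ∃ c' ∈ C j, ρ g c = χ g ^ j • c'
  fix : ∀ j, ∀ c ∈ C j, ∃ Δ : Subgroup Γ, Δ.FiniteIndex ∧ ∀ g ∈ Δ, ρ g c = χ g ^ j • c

/-- The element `c` of degree `2 j` is a Tate class: a subgroup of finite index acts on it by
`χ ^ j`. -/
def IsTate (χ : Γ → K) (gr : ℕ → Submodule K A) (ρ : Γ → A → A) (j : ℕ) (c : A) : Prop :=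
  c ∈ gr (2 * j) ∧ ∃ Δ : Subgroup Γ, Δ.FiniteIndex ∧ ∀ g ∈ Δ, ρ g c = χ g ^ j • c

/-- The action is semisimple: in every degree a subspace which is stable under a subgroup of finite
index has a complement which is stable under this subgroup. -/
def IsSemisimple (gr : ℕ → Submodule K A) (ρ : Γ → A → A) : Prop :=
  ∀ Δ : Subgroup Γ, Δ.FiniteIndex → ∀ i, ∀ U : Submodule K A, U ≤ gr i →
    (∀ g ∈ Δ, ∀ u ∈ U, ρ g u ∈ U) → ∃ U' : Submodule K A, U' ≤ gr i ∧
      (∀ g ∈ Δ, ∀ u ∈ U', ρ g u ∈ U') ∧ U ⊓ U' = ⊥ ∧ U ⊔ U' = gr i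

/-- The values of `χ` are `ℓ`-adic units, and there is a homogeneous basis in which the group acts
by `ℓ`-adic integral matrices. -/
def IsIntegral {ℓ : ℕ} [Fact ℓ.Prime] (φ : K ≃+* ℚ_[ℓ]) (χ : Γ → K) (gr : ℕ → Submodule K A)
    (ρ : Γ → A → A) : Prop :=
  (∀ g, ‖φ (χ g)‖ = 1) ∧ ∃ (d : ℕ) (v : Module.Basis (Fin d) K A), (∀ i, ∃ j, v i ∈ gr j) ∧
    ∀ g i j, ‖φ (v.repr (ρ g (v j)) i)‖ ≤ 1

/-- The operators `x ↦ s (c * p x)` given by the elements `c` of the space `S`. -/
def opsOf {B : Type} [Ring B] [Algebra K B] (p : A →ₐ[K] B) (s : B →ₗ[K] A) (S : Submodule K B) :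
    Set (A → A) :=
  {a | ∃ c ∈ S, ∀ x, s (c * p x) = a x}

/-- An element of the set `E` of operators which commutes with all elements of `E` and is skew with
respect to the trace is zero. -/
def NoSkewCentre (tr : A →ₗ[K] K) (E : Set (A → A)) : Prop :=
  ∀ a ∈ E, (∀ b ∈ E, ∀ x, a (b x) = b (a x)) → (∀ x y, tr (a x * y) = -tr (x * a y)) → ∀ x, a x = 0

/-- The dimension of the space spanned by the elements of the sets `S j`. -/
noncomputable def dimSpan (K : Type) {A : Type} [Field K] [Ring A] [Algebra K A]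
    (S : ℕ → Set A) : ℕ :=
  Module.finrank K (Submodule.span K (⋃ j, S j))

/-- For all `j`, the elements of `S j` are linear combinations of elements of `C j`. -/
def SpannedBy (K : Type) {A : Type} [Field K] [Ring A] [Algebra K A] (S C : ℕ → Set A) : Prop :=
  ∀ j, ∀ c ∈ S j, c ∈ Submodule.span K (C j)

/-- Hard Lefschetz: for `i ≤ d` the multiplication by `ξ ^ (d - i)` is a bijection from the elements
of degree `i` onto the elements of degree `2 d - i`. -/
def IsLefschetz (gr : ℕ → Submodule K A) (d : ℕ) (ξ : A) : Prop :=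
  ∀ i ≤ d, (∀ a ∈ gr i, ξ ^ (d - i) * a = 0 → a = 0) ∧
    ∀ b ∈ gr (2 * d - i), ∃ a ∈ gr i, ξ ^ (d - i) * a = b

/-- The sum of the spaces `pq p q` is direct, and `gr i` is the sum of those with `p + q = i`. -/
def IsBigrading {V : Type} [AddCommGroup V] [Module ℂ V] (gr : ℕ → Submodule ℂ V)
    (pq : ℤ → ℤ → Submodule ℂ V) : Prop :=
  (∀ i : ℕ, gr i = ⨆ r : {r : ℤ × ℤ // r.1 + r.2 = i}, pq r.1.1 r.1.2) ∧
    iSupIndep fun r : ℤ × ℤ => pq r.1 r.2

/-- The number `(-1) ^ (i (i - 1) / 2) I ^ (p - q) t`, where `i = p + q`, is real and positive. -/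
def IsPositive (p q : ℕ) (t : ℂ) : Prop :=
  ∃ r : ℝ, 0 < r ∧
    (-1) ^ ((p + q) * (p + q - 1) / 2) * (Complex.I ^ p * (-Complex.I) ^ q) * t = (r : ℂ)

end generic

/-- The quotients `t n / s n` tend to `N`, and they are at most `C` for odd `n`. -/
def Quot (t s : ℕ → ℕ) (C N : ℕ) : Prop :=
  Filter.Tendsto (fun n => (t n : ℝ≥0∞) / s n) Filter.atTop (nhds (N : ℝ≥0∞)) ∧
    ∀ n, t (2 * n + 1) ≤ C * s (2 * n + 1)

open Pool.Agent.H914 Pool.Agent.H914.VarClass Pool.Agent.H914.VarClass.Obj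
  Pool.Agent.H914.WeilCohomology
open Pool.Agent.Y129 (pw pj)
open Pool.Agent.Y121.AHS (HL emL smL mulL grL trL mapL)

variable {k : Type u} [Field k] {𝒱 : VarClass k} {ops : CycleOps 𝒱}

/-- The classes of the algebraic cycles of codimension `j` on `X`. -/
def alg (W : WeilCohomology.{u, 0} ops) (X : 𝒱.Obj) (j : ℕ) : Set (W.H X) :=
  {c | ∃ z, X.IsCyc j z ∧ W.cl X z = c}

/-- An action of a group on the cohomology of all powers of `X` like the action of the Galois group:
`ρ n` is the action on the cohomology of the product `pw X n` of `n + 1` copies of `X`; the actions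
are compatible with the projections `pj X n i` to the factors. -/
structure Gal (W : WeilCohomology.{u, 0} ops) (X : 𝒱.Obj) where
  /-- the group -/
  Γ : Type
  [group : Group Γ]
  /-- the cyclotomic character, or its inverse -/
  χ : Γ → W.K
  /-- the actions -/
  ρ : ∀ n, Γ → W.H (pw X n) → W.H (pw X n)
  act : ∀ n, IsGalois χ (W.gr (pw X n)) (pw X n).dim (W.tr (pw X n)) (alg W (pw X n)) (ρ n)
  proj : ∀ n i g a, ρ n g (W.map (pj X n i) a) = W.map (pj X n i) (ρ 0 g a)

attribute [instance] Gal.group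

namespace Gal

variable {W : WeilCohomology.{u, 0} ops} {X : 𝒱.Obj} (G : Gal W X)

/-- The Tate classes of codimension `j` on `pw X n`. -/
def tate (n j : ℕ) : Set (W.H (pw X n)) := {c | IsTate G.χ (W.gr (pw X n)) (G.ρ n) j c}

/-- The Tate conjecture for `pw X n`: the Tate classes are linear combinations of classes of
algebraic cycles. -/
def TateConj (n : ℕ) : Prop := SpannedBy W.K (G.tate n) (alg W (pw X n))

/-- The dimension of the space spanned by the Tate classes on `pw X n`. -/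
noncomputable def tateDim (n : ℕ) : ℕ := dimSpan W.K (G.tate n)

/-- The representation on the cohomology of `X` is semisimple. -/
def Semisimple : Prop := IsSemisimple (W.gr X) (G.ρ 0)

/-- The representation on the cohomology of `X` is integral. -/
def Integral {ℓ : ℕ} [Fact ℓ.Prime] (φ : W.K ≃+* ℚ_[ℓ]) : Prop :=
  IsIntegral φ G.χ (W.gr X) (G.ρ 0)

/-- There is no part of type IV: for the operators on the cohomology of `X` given by sums of Tate
classes on `X × X`, the central skew elements are zero. -/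
def NoTypeFour : Prop := NoSkewCentre (W.tr X) (opsOf (W.map (fst X X)) (W.push (snd X X))
  (show Submodule W.K (W.H (X.prod X)) from Submodule.span W.K (⋃ j, G.tate 1 j)))

end Gal

section Hodge

variable {W : WeilCohomology.{u, 0} ops} [Algebra W.K ℂ]

/-- The class `x` is of type `(p, q)`. -/
def OfType (pq : ∀ X : 𝒱.Obj, ℤ → ℤ → Submodule ℂ (HL W ℂ X)) {X : 𝒱.Obj} (p q : ℤ)
    (x : HL W ℂ X) : Prop := x ∈ pq X p q

/-- The Hodge types are additive for products, preserved by pull-backs, effective, and the classes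
of algebraic cycles of codimension `j` are of type `(j, j)`. -/
structure IsTyped (pq : ∀ X : 𝒱.Obj, ℤ → ℤ → Submodule ℂ (HL W ℂ X)) : Prop where
  mul : ∀ (X : 𝒱.Obj) (p q r s : ℤ) (a b : HL W ℂ X), OfType pq p q a → OfType pq r s b →
    OfType pq (p + r) (q + s) (mulL a b)
  map : ∀ (X Y : 𝒱.Obj) (f : X ⟶ Y) (p q : ℤ) (b : HL W ℂ Y), OfType pq p q b →
    OfType pq p q (mapL f b)
  cyc : ∀ (X : 𝒱.Obj) (j : ℕ) (z : X.Cycles), X.IsCyc j z →
    OfType pq j j (emL W ℂ (W.cl X z))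
  top : ∀ (X : 𝒱.Obj) (p q : ℤ) (x : HL W ℂ X), OfType pq p q x → trL x ≠ 0 → p = q
  eff : ∀ (X : 𝒱.Obj) (p q : ℤ) (x : HL W ℂ X), OfType pq p q x → x ≠ 0 → 0 ≤ p ∧ 0 ≤ q

/-- The properties of the complex conjugation `cj`. -/
structure IsConj (pq : ∀ X : 𝒱.Obj, ℤ → ℤ → Submodule ℂ (HL W ℂ X))
    (cj : ∀ X : 𝒱.Obj, HL W ℂ X → HL W ℂ X) : Prop where
  add : ∀ (X : 𝒱.Obj) (x y : HL W ℂ X), cj X (x + y) = cj X x + cj X y
  smul : ∀ (X : 𝒱.Obj) (l : ℂ) (x : HL W ℂ X), cj X (smL l x) = smL (starRingEnd ℂ l) (cj X x)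
  mul : ∀ (X : 𝒱.Obj) (x y : HL W ℂ X), cj X (mulL x y) = mulL (cj X x) (cj X y)
  map : ∀ (X Y : 𝒱.Obj) (f : X ⟶ Y) (y : HL W ℂ Y), cj X (mapL f y) = mapL f (cj Y y)
  cyc : ∀ (X : 𝒱.Obj) (z : X.Cycles), cj X (emL W ℂ (W.cl X z)) = emL W ℂ (W.cl X z)
  tr : ∀ (X : 𝒱.Obj) (x : HL W ℂ X), trL (cj X x) = starRingEnd ℂ (trL x)
  type : ∀ (X : 𝒱.Obj) (p q : ℤ) (x : HL W ℂ X), OfType pq p q x → OfType pq q p (cj X x)

variable (W) in
/-- The Hodge decomposition of the cohomology with complex coefficients: the spaces `pq X p q` of the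
classes of type `(p, q)` and the complex conjugation `cj`. -/
structure Hodge where
  /-- the spaces `H^(p,q)(X)` -/
  pq : ∀ X : 𝒱.Obj, ℤ → ℤ → Submodule ℂ (HL W ℂ X)
  /-- the complex conjugation -/
  cj : ∀ X : 𝒱.Obj, HL W ℂ X → HL W ℂ X
  big : ∀ X : 𝒱.Obj, IsBigrading (grL W ℂ X) (pq X)
  typed : IsTyped pq
  conj : IsConj pq cj

/-- The divisor `D` is a polarisation of `X`: its class `ξ` satisfies the hard Lefschetz theorem and
the Hodge-Riemann relations. -/
def Hodge.Polarizes (H : Hodge W) (X : 𝒱.Obj) (D : X.Cycles) : Prop :=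
  X.IsCyc 1 D ∧ IsLefschetz (W.gr X) X.dim (W.cl X D) ∧
    ∀ (p q : ℕ) (x : HL W ℂ X), p + q ≤ X.dim → OfType H.pq p q x → x ≠ 0 →
      mulL (emL W ℂ (W.cl X D ^ (X.dim - (p + q) + 1))) x = 0 →
      IsPositive p q
        (trL (mulL (emL W ℂ (W.cl X D ^ (X.dim - (p + q)))) (mulL x (H.cj X x))))

end Hodge

/-- The dimension of the whole cohomology of `X`. -/
noncomputable def hdim (W : WeilCohomology.{u, 0} ops) (X : 𝒱.Obj) : ℕ :=
  Module.finrank W.K (W.H X)

/-- The dimension of the space spanned by the classes of algebraic cycles on `pw X n`. -/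
noncomputable def algDim (W : WeilCohomology.{u, 0} ops) (X : 𝒱.Obj) (n : ℕ) : ℕ :=
  dimSpan W.K (alg W (pw X n))

/-- The bound `(2 b + 1) ^ (2 b²)`. -/
def bound (b : ℕ) : ℕ := (2 * b + 1) ^ (2 * b ^ 2)

end Pool.Agent.E8helper1.TP
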